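import Pool.Agent.ARC.Stmts

set_option autoImplicit false

/-! # Row MNA: the archimedean determinant lemma -/

namespace Pool.Agent.ARC.H66

open scoped BigOperators

/-- the summands of the rows -/
def RW {ι G : Type} {c : ℕ} (γ : ι → G) (E : ι → ι → ℂ) (A : ι → Fin c → ℂ)
    (B : G → Fin c → ι → ℂ) (i : ι) : Option (Fin c) → ι → ℂ
  | none => E i
  | some s => fun j => A i s * B (γ i) s j

/-- Leibniz formula. -/
lemma leib {ι : Type} [Fintype ι] [DecidableEq ι] (N : Matrix ι ι ℂ) (p : ι → Prop)
    [DecidablePred p] (ω χ : ι → ℝ) (ε : ℝ)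
    (h : ∀ i j, ‖N i j‖ ≤ (if p i then ε else 1) * (ω i * χ j)) :
    ‖N.det‖ ≤ ((Fintype.card ι).factorial : ℝ) *
      (ε ^ (Finset.univ.filter p).card * ((∏ i, ω i) * ∏ j, χ j)) := by
  rw [Matrix.det_apply']
  refine (norm_sum_le _ _).trans ?_
  have hb : ∀ σ ∈ (Finset.univ : Finset (Equiv.Perm ι)),
      ‖((Equiv.Perm.sign σ : ℤ) : ℂ) * ∏ i, N (σ i) i‖ ≤
        ε ^ (Finset.univ.filter p).card * ((∏ i, ω i) * ∏ j, χ j) := by
    intro σ _
    have hs : ‖((Equiv.Perm.sign σ : ℤ) : ℂ)‖ = 1 := by
      rcases Int.units_eq_one_or (Equiv.Perm.sign σ) with h1 | h1 <;> rw [h1] <;> simp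
    rw [norm_mul, hs, one_mul, norm_prod]
    refine (Finset.prod_le_prod (fun _ _ => norm_nonneg _) (fun i _ => h (σ i) i)).trans ?_
    rw [Finset.prod_mul_distrib, Finset.prod_mul_distrib, Equiv.prod_comp σ ω,
      Equiv.prod_comp σ (fun i => if p i then ε else 1), Finset.prod_ite, Finset.prod_const,
      Finset.prod_const_one, mul_one]
  refine (Finset.sum_le_sum hb).trans ?_
  rw [Finset.sum_const, Finset.card_univ, Fintype.card_perm, nsmul_eq_mul]

/-- Two proportional rows. -/
lemma det_prop {ι : Type} [Fintype ι] [DecidableEq ι] (N : Matrix ι ι ℂ) (b : ι → ℂ) (x y : ℂ)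
    (i i' : ι) (hi : i ≠ i') (h1 : N i = x • b) (h2 : N i' = y • b) : N.det = 0 := by
  have e1 : N = Matrix.updateRow N i (x • b) := by
    rw [← h1, Matrix.updateRow_eq_self]
  rw [e1, Matrix.det_updateRow_smul]
  have e2 : Matrix.updateRow N i b = Matrix.updateRow (Matrix.updateRow N i b) i' (y • b) := by
    have h3 : (Matrix.updateRow N i b) i' = y • b := by
      rw [Matrix.updateRow_ne hi.symm, h2]
    rw [← h3, Matrix.updateRow_eq_self]
  rw [e2, Matrix.det_updateRow_smul]
  have e3 : (Matrix.updateRow (Matrix.updateRow N i b) i' b).det = 0 := by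
    refine Matrix.det_zero_of_row_eq hi ?_
    rw [Matrix.updateRow_ne hi, Matrix.updateRow_self, Matrix.updateRow_self]
  rw [e3, mul_zero, mul_zero]

/-- **Row MNA** -/
theorem mna : MnaStmt := by
  classical
  intro ι G _ _ _ c γ M A B ω χ ε h0 h1 hω hχ hAB hM
  set E : ι → ι → ℂ := fun i j => M i j - ∑ s, A i s * B (γ i) s j with hE
  have hrow : M = fun i => ∑ o : Option (Fin c), RW γ E A B i o := by
    funext i j
    rw [Fintype.sum_option, Pi.add_apply, Finset.sum_apply]
    show M i j = (M i j - ∑ s, A i s * B (γ i) s j) + ∑ s, A i s * B (γ i) s j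
    ring
  have hexp : M.det = ∑ φ : ι → Option (Fin c), Matrix.det (fun i => RW γ E A B i (φ i)) := by
    have h2 := (Matrix.detRowAlternating (n := ι) (R := ℂ)).toMultilinearMap.map_sum
      (fun i (o : Option (Fin c)) => RW γ E A B i o)
    rw [← hrow] at h2
    exact h2
  have hP : 0 ≤ (∏ i, ω i) * ∏ j, χ j :=
    mul_nonneg (Finset.prod_nonneg fun i _ => (hω i).le) (Finset.prod_nonneg fun j _ => (hχ j).le)
  have hterm : ∀ φ ∈ (Finset.univ : Finset (ι → Option (Fin c))),
      ‖Matrix.det (fun i => RW γ E A B i (φ i))‖ ≤ ((Fintype.card ι).factorial : ℝ) *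
        (ε ^ (Fintype.card ι - c * Fintype.card G) * ((∏ i, ω i) * ∏ j, χ j)) := by
    intro φ _
    by_cases hcol : ∃ i i' : ι, i ≠ i' ∧ γ i = γ i' ∧ ∃ s, φ i = some s ∧ φ i' = some s
    · obtain ⟨i, i', hi, hγ, s, hs, hs'⟩ := hcol
      have hz : Matrix.det (fun i => RW γ E A B i (φ i)) = 0 := by
        refine det_prop _ (B (γ i) s) (A i s) (A i' s) i i' hi ?_ ?_
        · show RW γ E A B i (φ i) = _
          rw [hs]
          rfl
        · show RW γ E A B i' (φ i') = _
          rw [hs', hγ]
          rfl
      rw [hz, norm_zero]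
      positivity
    · have hl := leib (fun i => RW γ E A B i (φ i)) (fun i => φ i = none) ω χ ε (by
        intro i j
        show ‖RW γ E A B i (φ i) j‖ ≤ _
        cases hφ : φ i with
        | none =>
          rw [if_pos rfl]
          exact hM i j
        | some s =>
          rw [if_neg (by simp), one_mul]
          show ‖A i s * B (γ i) s j‖ ≤ _
          rw [norm_mul]
          exact hAB i s j)
      refine hl.trans ?_
      refine mul_le_mul_of_nonneg_left ?_ (Nat.cast_nonneg _)
      refine mul_le_mul_of_nonneg_right ?_ hP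
      refine pow_le_pow_of_le_one h0 h1 ?_
      -- count
      have hcard : (Finset.univ.filter (fun i => ¬ φ i = none)).card ≤ c * Fintype.card G := by
        have hc1 : (Finset.univ : Finset (Fin c × G)).card = c * Fintype.card G := by
          rw [Finset.card_univ, Fintype.card_prod, Fintype.card_fin]
        rw [← hc1]
        rcases Nat.eq_zero_or_pos c with hc0 | hc0
        · subst hc0
          have : Finset.univ.filter (fun i => ¬ φ i = none) = ∅ := by
            rw [Finset.filter_eq_empty_iff]
            intro i _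
            cases hφ : φ i with
            | none => simp
            | some s => exact s.elim0
          rw [this]
          simp
        · refine Finset.card_le_card_of_injOn
            (fun i => (((φ i).getD ⟨0, hc0⟩, γ i) : Fin c × G)) (fun _ _ => Finset.mem_coe.mpr (Finset.mem_univ _)) ?_
          intro i hi i' hi' he
          have hi2 := (Finset.mem_filter.mp (Finset.mem_coe.mp hi)).2
          have hi2' := (Finset.mem_filter.mp (Finset.mem_coe.mp hi')).2
          obtain ⟨s, hs⟩ := Option.ne_none_iff_exists'.mp hi2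
          obtain ⟨s', hs'⟩ := Option.ne_none_iff_exists'.mp hi2'
          simp only [hs, hs', Option.getD_some, Prod.mk.injEq] at he
          by_contra hne
          exact hcol ⟨i, i', hne, he.2, s, hs, by rw [hs', he.1]⟩
      have htot := Finset.card_filter_add_card_filter_not (s := (Finset.univ : Finset ι))
        (fun i => φ i = none)
      rw [Finset.card_univ] at htot
      omega
  rw [hexp]
  refine (norm_sum_le _ _).trans ((Finset.sum_le_sum hterm).trans ?_)
  rw [Finset.sum_const, Finset.card_univ, Fintype.card_fun, Fintype.card_option, Fintype.card_fin,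
    nsmul_eq_mul]
  push_cast
  apply le_of_eq
  ring

end Pool.Agent.ARC.H66
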